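import Mathlib
import Pool.Agent.H711R2.KM.Props

/-!
Task M1 (helper477): little Grothendieck inequality with states, by the M. Riesz extension theorem.
-/

open scoped ComplexOrder InnerProductSpace ComplexConjugate
open Finset

noncomputable section

namespace H711R2.KM

open H759R2.Kad H711R2.KG H770R2.Kad H710R2.DP

namespace P_M1

section a

variable {A : Type} [CStarAlgebra A]

theorem sqrt_smul_star (t : ℝ) (ht : 0 ≤ t) (a : A) :
    star (Real.sqrt t • a) * (Real.sqrt t • a) = t • (star a * a) := by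
  rw [star_smul, smul_mul_smul_comm]
  simp [Real.mul_self_sqrt ht]

theorem sqrt_smul_star' (t : ℝ) (ht : 0 ≤ t) (a : A) :
    (Real.sqrt t • a) * star (Real.sqrt t • a) = t • (a * star a) := by
  rw [star_smul, smul_mul_smul_comm]
  simp [Real.mul_self_sqrt ht]

variable {K : Type} [NormedAddCommGroup K] [InnerProductSpace ℂ K]

theorem norm_sqrt (T : A →ₗ[ℂ] K) (t : ℝ) (ht : 0 ≤ t) (a : A) :
    ‖T (Real.sqrt t • a)‖ ^ 2 = t * ‖T a‖ ^ 2 := by
  have h : Real.sqrt t • a = ((Real.sqrt t : ℝ) : ℂ) • a := by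
    rw [Complex.coe_smul]
  rw [h, map_smul, norm_smul, mul_pow, Complex.norm_real, Real.norm_eq_abs, sq_abs,
    Real.sq_sqrt ht]

variable [PartialOrder A] [StarOrderedRing A]

/-- the cone -/
def Cn (T : A →ₗ[ℂ] K) : ConvexCone ℝ (A × A × ℝ) where
  carrier := {p | ∃ (n : ℕ) (x : Fin n → A),
    (2 : ℝ) • ∑ i, star (x i) * x i ≤ p.1 + star p.1 ∧
    (2 : ℝ) • ∑ i, x i * star (x i) ≤ p.2.1 + star p.2.1 ∧
    -∑ i, ‖T (x i)‖ ^ 2 ≤ p.2.2}
  smul_mem' := by
    rintro c hc p ⟨n, x, h1, h2, h3⟩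
    refine ⟨n, fun i => Real.sqrt c • x i, ?_, ?_, ?_⟩
    · have e : (c • p).1 + star (c • p).1 = c • (p.1 + star p.1) := by
        simp [smul_add, star_smul]
      rw [e]
      simp only [sqrt_smul_star c hc.le]
      rw [← Finset.smul_sum, smul_comm]
      exact smul_le_smul_of_nonneg_left h1 hc.le
    · have e : (c • p).2.1 + star (c • p).2.1 = c • (p.2.1 + star p.2.1) := by
        simp [smul_add, star_smul]
      rw [e]
      simp only [sqrt_smul_star' c hc.le]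
      rw [← Finset.smul_sum, smul_comm]
      exact smul_le_smul_of_nonneg_left h2 hc.le
    · simp only [norm_sqrt T c hc.le]
      rw [← Finset.mul_sum, ← mul_neg]
      exact mul_le_mul_of_nonneg_left h3 hc.le
  add_mem' := by
    rintro p ⟨n, x, h1, h2, h3⟩ q ⟨m, y, k1, k2, k3⟩
    refine ⟨n + m, Fin.append x y, ?_, ?_, ?_⟩
    · rw [Fin.sum_univ_add]
      simp only [Fin.append_left, Fin.append_right]
      rw [smul_add]
      have e : (p + q).1 + star (p + q).1 = (p.1 + star p.1) + (q.1 + star q.1) := by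
        rw [Prod.fst_add, star_add]
        abel
      rw [e]
      exact add_le_add h1 k1
    · rw [Fin.sum_univ_add]
      simp only [Fin.append_left, Fin.append_right]
      rw [smul_add]
      have e : (p + q).2.1 + star (p + q).2.1 = (p.2.1 + star p.2.1) + (q.2.1 + star q.2.1) := by
        rw [Prod.snd_add, Prod.fst_add, star_add]
        abel
      rw [e]
      exact add_le_add h2 k2
    · rw [Fin.sum_univ_add]
      simp only [Fin.append_left, Fin.append_right]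
      rw [neg_add]
      exact add_le_add h3 k3

theorem mem_Cn (T : A →ₗ[ℂ] K) (p : A × A × ℝ) : p ∈ Cn T ↔ ∃ (n : ℕ) (x : Fin n → A),
    (2 : ℝ) • ∑ i, star (x i) * x i ≤ p.1 + star p.1 ∧
    (2 : ℝ) • ∑ i, x i * star (x i) ≤ p.2.1 + star p.2.1 ∧
    -∑ i, ‖T (x i)‖ ^ 2 ≤ p.2.2 := Iff.rfl

/-- elements with nonnegative real parts -/
theorem mem_Cn_pos (T : A →ₗ[ℂ] K) (a b : A) (r : ℝ) (ha : 0 ≤ a + star a) (hb : 0 ≤ b + star b)
    (hr : 0 ≤ r) : (a, b, r) ∈ Cn T := by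
  rw [mem_Cn]
  refine ⟨0, Fin.elim0, ?_, ?_, ?_⟩
  · simpa using ha
  · simpa using hb
  · simpa using hr

theorem mem_Cn_self (T : A →ₗ[ℂ] K) (x : A) :
    (star x * x, x * star x, -‖T x‖ ^ 2) ∈ Cn T := by
  rw [mem_Cn]
  refine ⟨1, fun _ => x, ?_, ?_, ?_⟩
  · simp [two_smul]
  · simp [two_smul]
  · simp

/-- the subspace of the scalars -/
def io (A : Type) [CStarAlgebra A] : (ℝ × ℝ × ℝ) →ₗ[ℝ] (A × A × ℝ) where
  toFun p := (p.1 • 1, p.2.1 • 1, p.2.2)
  map_add' p q := by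
    simp [add_smul]
  map_smul' c p := by
    simp [mul_smul]

omit [PartialOrder A] [StarOrderedRing A] in
theorem io_inj [Nontrivial A] : Function.Injective (io A) := by
  intro p q h
  have h1 : p.1 • (1 : A) = q.1 • (1 : A) := congrArg Prod.fst h
  have h2 : p.2.1 • (1 : A) = q.2.1 • (1 : A) := congrArg (fun z => z.2.1) h
  have h3 : p.2.2 = q.2.2 := congrArg (fun z => z.2.2) h
  have e1 := smul_left_injective ℝ (one_ne_zero (α := A)) h1
  have e2 := smul_left_injective ℝ (one_ne_zero (α := A)) h2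
  exact Prod.ext e1 (Prod.ext e2 h3)

/-- the functional on the scalars -/
def f0 (M : ℝ) : (ℝ × ℝ × ℝ) →ₗ[ℝ] ℝ where
  toFun p := 3 * M ^ 2 * (p.1 + p.2.1) + p.2.2
  map_add' p q := by
    simp
    ring
  map_smul' c p := by
    simp
    ring

/-- the partially defined functional -/
def fp (A : Type) [CStarAlgebra A] [Nontrivial A] (M : ℝ) : (A × A × ℝ) →ₗ.[ℝ] ℝ where
  domain := LinearMap.range (io A)
  toFun := (f0 M).comp (LinearEquiv.ofInjective (io A) io_inj).symm.toLinearMap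

omit [PartialOrder A] [StarOrderedRing A] in
theorem fp_apply [Nontrivial A] (M : ℝ) (p : ℝ × ℝ × ℝ) :
    fp A M ⟨io A p, LinearMap.mem_range_self _ p⟩ = f0 M p := by
  have h : (LinearEquiv.ofInjective (io A) io_inj).symm ⟨io A p, LinearMap.mem_range_self _ p⟩ = p :=
    (LinearEquiv.symm_apply_eq _).2 rfl
  exact congrArg (f0 M) h

theorem nonneg_of_smul_one [Nontrivial A] {s : ℝ} (h : (0 : A) ≤ s • (1 : A)) : 0 ≤ s := by
  by_contra hs
  push Not at hs
  have h1 : s • (1 : A) ≤ 0 := by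
    have h2 : (0 : A) ≤ (-s) • (1 : A) := smul_nonneg (by linarith) zero_le_one
    rw [neg_smul] at h2
    exact neg_nonneg.1 h2
  have h3 : s • (1 : A) = 0 := le_antisymm h1 h
  rcases smul_eq_zero.1 h3 with h4 | h4
  · linarith
  · exact one_ne_zero h4

theorem norm_le_of [Nontrivial A] {x : A} {s : ℝ} (hx : 0 ≤ x) (h : (2 : ℝ) • x ≤
    s • (1 : A) + star (s • (1 : A))) : ‖x‖ ≤ s := by
  have h1 : s • (1 : A) + star (s • (1 : A)) = (2 : ℝ) • (s • (1 : A)) := by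
    rw [star_smul, star_one, star_trivial, two_smul]
  rw [h1] at h
  have h2 : x ≤ s • (1 : A) := by
    have := smul_le_smul_of_nonneg_left h (by norm_num : (0 : ℝ) ≤ 1 / 2)
    rw [smul_smul, smul_smul (1 / 2 : ℝ)] at this
    norm_num at this
    exact this
  have hs : 0 ≤ s := nonneg_of_smul_one (hx.trans h2)
  rw [CStarAlgebra.norm_le_iff_le_algebraMap x hs hx, Algebra.algebraMap_eq_smul_one]
  exact h2

theorem re_nonneg (a : A) : 0 ≤ (‖a‖ • (1 : A) + a) + star (‖a‖ • (1 : A) + a) := by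
  have hsa : IsSelfAdjoint (a + star a) := IsSelfAdjoint.add_star_self a
  have h1 : -(algebraMap ℝ A) ‖a + star a‖ ≤ a + star a := hsa.neg_algebraMap_norm_le_self
  have h2 : ‖a + star a‖ ≤ 2 * ‖a‖ := by
    calc ‖a + star a‖ ≤ ‖a‖ + ‖star a‖ := norm_add_le _ _
      _ = 2 * ‖a‖ := by rw [norm_star]; ring
  have h3 : -((2 * ‖a‖) • (1 : A)) ≤ a + star a := by
    refine le_trans ?_ h1
    rw [Algebra.algebraMap_eq_smul_one]
    exact neg_le_neg (smul_le_smul_of_nonneg_right h2 zero_le_one)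
  have e : (‖a‖ • (1 : A) + a) + star (‖a‖ • (1 : A) + a) = (2 * ‖a‖) • (1 : A) + (a + star a) := by
    rw [star_add, star_smul, star_one, star_trivial, two_mul, add_smul]
    abel
  rw [e]
  exact neg_le_iff_add_nonneg'.1 h3

/-- extension to a state -/
theorem state_of (G : A →ₗ[ℝ] ℝ) (G1 : G 1 = 1) (Gpos : ∀ x : A, 0 ≤ x + star x → 0 ≤ G x) :
    ∃ φ : A →ₗ[ℂ] ℂ, IsState φ ∧ ∀ a, (φ a).re = G a := by
  have Gskew : ∀ x : A, star x = -x → G x = 0 := by
    intro x hx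
    apply le_antisymm
    · have := Gpos (-x) (by rw [star_neg, hx]; simp)
      rw [map_neg] at this; linarith
    · exact Gpos x (by rw [hx]; simp)
  refine ⟨Module.Dual.extendRCLike (𝕜 := ℂ) G, ⟨?_, ?_⟩, ?_⟩
  · rw [Module.Dual.extendRCLike_apply, G1]
    have : G ((RCLike.I : ℂ) • (1 : A)) = 0 := by
      apply Gskew
      rw [star_smul, star_one]
      simp
    rw [this]; simp
  · intro a
    rw [Module.Dual.extendRCLike_apply]
    have : G ((RCLike.I : ℂ) • (star a * a)) = 0 := by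
      apply Gskew
      rw [star_smul, star_mul, star_star]
      simp
    rw [this]
    have h0 : 0 ≤ G (star a * a) := by
      apply Gpos
      rw [star_mul, star_star]
      exact add_nonneg (star_mul_self_nonneg a) (star_mul_self_nonneg a)
    simpa using h0
  · intro a
    rw [Module.Dual.extendRCLike_apply]
    simp

end a

theorem main (hgt : St_gt.{0, 0}) (A : Type) [CStarAlgebra A] [PartialOrder A] [StarOrderedRing A]
    [Nontrivial A] (K : Type) [NormedAddCommGroup K] [InnerProductSpace ℂ K] [CompleteSpace K]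
    (T : A →ₗ[ℂ] K) (M : ℝ) (hM : 0 < M) (hT : ∀ b, ‖T b‖ ≤ M * ‖b‖) :
    ∃ φ ψ : A →ₗ[ℂ] ℂ, IsState φ ∧ IsState ψ ∧
      ∀ a, ‖T a‖ ^ 2 ≤ 3 * M ^ 2 * ((φ (star a * a)).re + (ψ (a * star a)).re) := by
  have hM3 : 0 < 3 * M ^ 2 := by positivity
  have hpt : (Cn T).Pointed := mem_Cn_pos T 0 0 0 (by simp) (by simp) le_rfl
  obtain ⟨g, hg1, hg2'⟩ := riesz_extension ((Cn T).toPointedCone hpt) (fp A M) (by
    rintro ⟨_, ⟨p, rfl⟩⟩ hp
    rw [fp_apply]
    obtain ⟨n, x, h1, h2, h3⟩ := (mem_Cn T _).1 ((ConvexCone.mem_toPointedCone hpt _).1 hp)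
    have k1 : ‖∑ i, star (x i) * x i‖ ≤ p.1 :=
      norm_le_of (Finset.sum_nonneg fun i _ => star_mul_self_nonneg (x i)) h1
    have k2 : ‖∑ i, x i * star (x i)‖ ≤ p.2.1 :=
      norm_le_of (Finset.sum_nonneg fun i _ => mul_star_self_nonneg (x i)) h2
    have k3 := hgt A K T M hM.le hT (Fin n) x
    have k4 : -∑ i, ‖T (x i)‖ ^ 2 ≤ p.2.2 := h3
    show 0 ≤ 3 * M ^ 2 * (p.1 + p.2.1) + p.2.2
    have k5 : 3 * M ^ 2 * (‖∑ i, star (x i) * x i‖ + ‖∑ i, x i * star (x i)‖) ≤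
        3 * M ^ 2 * (p.1 + p.2.1) := mul_le_mul_of_nonneg_left (add_le_add k1 k2) hM3.le
    linarith) (by
    rintro ⟨a, b, r⟩
    refine ⟨⟨io A (‖a‖, ‖b‖, -r), LinearMap.mem_range_self _ _⟩, ?_⟩
    rw [ConvexCone.mem_toPointedCone]
    show (‖a‖ • (1 : A) + a, ‖b‖ • (1 : A) + b, -r + r) ∈ Cn T
    exact mem_Cn_pos T _ _ _ (re_nonneg a) (re_nonneg b) (by simp))
  have hg2 : ∀ x ∈ Cn T, 0 ≤ g x := fun x hx => hg2' x ((ConvexCone.mem_toPointedCone hpt x).2 hx)
  have hgv : ∀ s t r : ℝ, g (s • (1 : A), t • (1 : A), r) = 3 * M ^ 2 * (s + t) + r := by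
    intro s t r
    have h1 := hg1 ⟨io A (s, t, r), LinearMap.mem_range_self _ _⟩
    rw [fp_apply] at h1
    exact h1
  obtain ⟨φ, hφ, hφr⟩ := state_of ((3 * M ^ 2)⁻¹ • g.comp (LinearMap.inl ℝ A (A × ℝ)))
    (by
      have h1 := hgv 1 0 0
      rw [one_smul, zero_smul, add_zero, add_zero, mul_one] at h1
      show (3 * M ^ 2)⁻¹ * g (1, 0) = 1
      rw [show ((1 : A), (0 : A × ℝ)) = (1, 0, 0) from rfl, h1, inv_mul_cancel₀ hM3.ne'])
    (by
      intro x hx
      show 0 ≤ (3 * M ^ 2)⁻¹ * g (x, 0)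
      exact mul_nonneg (inv_nonneg.2 hM3.le)
        (hg2 _ (mem_Cn_pos T x 0 0 hx (by simp) le_rfl)))
  obtain ⟨ψ, hψ, hψr⟩ := state_of ((3 * M ^ 2)⁻¹ •
      g.comp ((LinearMap.inr ℝ A (A × ℝ)).comp (LinearMap.inl ℝ A ℝ)))
    (by
      have h1 := hgv 0 1 0
      rw [one_smul, zero_smul, zero_add, mul_one, add_zero] at h1
      show (3 * M ^ 2)⁻¹ * g (0, 1, 0) = 1
      rw [h1, inv_mul_cancel₀ hM3.ne'])
    (by
      intro x hx
      show 0 ≤ (3 * M ^ 2)⁻¹ * g (0, x, 0)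
      exact mul_nonneg (inv_nonneg.2 hM3.le)
        (hg2 _ (mem_Cn_pos T 0 x 0 (by simp) hx le_rfl)))
  refine ⟨φ, ψ, hφ, hψ, fun a => ?_⟩
  have h1 := hg2 _ (mem_Cn_self T a)
  have h2 : g (star a * a, a * star a, -‖T a‖ ^ 2) =
      g (star a * a, 0) + g (0, a * star a, 0) + g ((0 : ℝ) • (1 : A), (0 : ℝ) • (1 : A), -‖T a‖ ^ 2) := by
    rw [← map_add, ← map_add]
    congr 1
    simp
  rw [h2, hgv] at h1
  rw [hφr, hψr]
  show _ ≤ 3 * M ^ 2 * ((3 * M ^ 2)⁻¹ * g (star a * a, 0) + (3 * M ^ 2)⁻¹ * g (0, a * star a, 0))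
  rw [← mul_add, mul_inv_cancel_left₀ hM3.ne']
  linarith

end P_M1

open P_M1 in
theorem p_M_hb (hgt : St_gt.{0, 0}) : M_hb := by
  intro A _ _ _ _ K _ _ _ T M hM hT
  rcases hM.eq_or_lt with h0 | h0
  · have hT0 : ∀ b, T b = 0 := by
      intro b
      have := hT b
      rw [← h0, zero_mul] at this
      exact norm_le_zero_iff.1 this
    obtain ⟨φ, ψ, hφ, hψ, -⟩ := main hgt A K T 1 one_pos (by
      intro b
      rw [hT0, norm_zero, one_mul]
      exact norm_nonneg b)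
    refine ⟨φ, ψ, hφ, hψ, fun a => ?_⟩
    rw [hT0, ← h0]
    simp
  · exact main hgt A K T M h0 hT

end H711R2.KM
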