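import Mathlib
import Pool.Agent.H711R2.KM.Props

/-!
Task M2 (helper388): the direct sum of the GNS representations of all states.
-/

open scoped ComplexOrder InnerProductSpace ComplexConjugate
open Finset

noncomputable section

namespace H711R2.KM

open H759R2.Kad H711R2.KG H770R2.Kad H710R2.DP

namespace P_M2

variable {A : Type} [CStarAlgebra A] {I : Type} {K : I → Type}
  [∀ i, NormedAddCommGroup (K i)] [∀ i, InnerProductSpace ℂ (K i)] [∀ i, CompleteSpace (K i)]

/-- the diagonal operator -/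
def dg (σ : ∀ i, A →⋆ₐ[ℂ] (K i →L[ℂ] K i)) (a : A) : lp K 2 →L[ℂ] lp K 2 :=
  lp.mapCLM 2 (fun i => σ i a) (norm_nonneg a)
    (fun i => NonUnitalStarAlgHom.norm_apply_le (σ i) a)

theorem dg_apply (σ : ∀ i, A →⋆ₐ[ℂ] (K i →L[ℂ] K i)) (a : A) (x : lp K 2) (i : I) :
    (dg σ a x) i = σ i a (x i) := by
  simp [dg]

theorem ext_op {S T : lp K 2 →L[ℂ] lp K 2} (h : ∀ x i, (S x) i = (T x) i) : S = T := by
  apply ContinuousLinearMap.ext
  intro x
  apply lp.ext
  funext i
  exact h x i

/-- the direct sum of representations -/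
def rep (σ : ∀ i, A →⋆ₐ[ℂ] (K i →L[ℂ] K i)) : A →⋆ₐ[ℂ] (lp K 2 →L[ℂ] lp K 2) where
  toFun := dg σ
  map_one' := ext_op fun x i => by
    rw [dg_apply, map_one]
    rfl
  map_mul' a b := ext_op fun x i => by
    rw [dg_apply, map_mul, ContinuousLinearMap.mul_apply, ContinuousLinearMap.mul_apply,
      dg_apply, dg_apply]
  map_zero' := ext_op fun x i => by
    rw [dg_apply, map_zero]
    rfl
  map_add' a b := ext_op fun x i => by
    rw [dg_apply, map_add, ContinuousLinearMap.add_apply, ContinuousLinearMap.add_apply]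
    change _ = (dg σ a x) i + (dg σ b x) i
    rw [dg_apply, dg_apply]
  commutes' r := ext_op fun x i => by
    rw [dg_apply, Algebra.algebraMap_eq_smul_one, Algebra.algebraMap_eq_smul_one, map_smul,
      map_one]
    rfl
  map_star' a := by
    rw [ContinuousLinearMap.star_eq_adjoint, ContinuousLinearMap.eq_adjoint_iff]
    intro x y
    rw [lp.inner_eq_tsum, lp.inner_eq_tsum]
    congr 1
    funext i
    rw [dg_apply, dg_apply, map_star, ContinuousLinearMap.star_eq_adjoint,
      ContinuousLinearMap.adjoint_inner_left]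

theorem rep_apply (σ : ∀ i, A →⋆ₐ[ℂ] (K i →L[ℂ] K i)) (a : A) (x : lp K 2) (i : I) :
    (rep σ a x) i = σ i a (x i) := dg_apply σ a x i

end P_M2

open P_M2

theorem p_M_univ (hg : H770R2.Kad.G_gns.{0}) : M_univ := by
  intro A _ _
  classical
  choose K i1 i2 i3 σ Ω hΩ hφ _ using
    fun φ : {φ : A →ₗ[ℂ] ℂ // IsState φ} => hg A φ.1 φ.2.1 φ.2.2
  refine ⟨lp K 2, inferInstance, inferInstance, inferInstance, rep σ, fun φ hφs => ?_⟩
  refine ⟨lp.single 2 ⟨φ, hφs⟩ (Ω ⟨φ, hφs⟩), ?_, fun a => ?_⟩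
  · rw [lp.norm_single (by norm_num), hΩ]
  · rw [lp.inner_single_left, rep_apply, lp.single_apply_self]
    exact hφ ⟨φ, hφs⟩ a

end H711R2.KM
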