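import Mathlib
import Pool.Agent.H711R2.KM.Props
import Pool.Agent.H267R2.Kad5.Xext

/-! Task M4 of helper711 (helper470): extension of a bounded homomorphism to the von Neumann
algebra generated by the universal representation. -/

set_option autoImplicit false

open scoped ComplexOrder InnerProductSpace
open Filter

noncomputable section

namespace H711R2.KM

open H759R2.Kad H711R2.KG H770R2.Kad H710R2.DP

namespace P_M4

/-- Evaluation of `u` at a vector as a linear map. -/
def ev {A : Type} [CStarAlgebra A] {H : Type} [NormedAddCommGroup H] [InnerProductSpace ℂ H]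
    (u : A →ₗ[ℂ] (H →L[ℂ] H)) (ξ : H) : A →ₗ[ℂ] H where
  toFun a := u a ξ
  map_add' a b := by rw [map_add]; rfl
  map_smul' t a := by rw [map_smul]; rfl

theorem ev_apply {A : Type} [CStarAlgebra A] {H : Type} [NormedAddCommGroup H]
    [InnerProductSpace ℂ H] (u : A →ₗ[ℂ] (H →L[ℂ] H)) (ξ : H) (a : A) : ev u ξ a = u a ξ := rfl

end P_M4

open P_M4 H770R2.Kad.AXEXT in
theorem p_M_ext (huniv : M_univ) (hconv : M_conv) (hnet : H770R2.Kad.G_net.{0, 0}) : M_ext := by
  classical
  intro A _ _ H _ _ _ u hu c hc hub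
  letI : PartialOrder A := CStarAlgebra.spectralOrder A
  letI : StarOrderedRing A := CStarAlgebra.spectralOrderedRing A
  obtain ⟨E, i1, i2, i3, π, hπ⟩ := huniv A
  -- the von Neumann algebra
  have hT : star (Set.centralizer (Set.range π)) = Set.centralizer (Set.range π) := by
    have h4 : ∀ y, y ∈ Set.centralizer (Set.range π) → star y ∈ Set.centralizer (Set.range π) := by
      intro y hy
      rw [Set.mem_centralizer_iff] at hy ⊢
      rintro _ ⟨a, rfl⟩
      have h5 := hy (π (star a)) ⟨star a, rfl⟩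
      have h6 := congrArg star h5
      rw [star_mul, star_mul, map_star, star_star] at h6
      exact h6.symm
    ext y
    rw [Set.mem_star]
    constructor
    · intro hy
      have := h4 _ hy
      rwa [star_star] at this
    · exact h4 y
  obtain ⟨W, hWmem⟩ : ∃ W : VonNeumannAlgebra E, ∀ x : E →L[ℂ] E, x ∈ W.toStarSubalgebra ↔
      ∀ y : E →L[ℂ] E, (∀ a, y * π a = π a * y) → y * x = x * y := by
    refine ⟨{ toStarSubalgebra := StarSubalgebra.centralizer ℂ (Set.centralizer (Set.range π))
              centralizer_centralizer' := by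
                change Set.centralizer (Set.centralizer (Set.centralizer
                  (Set.centralizer (Set.range π) ∪ star (Set.centralizer (Set.range π))))) =
                  Set.centralizer
                    (Set.centralizer (Set.range π) ∪ star (Set.centralizer (Set.range π)))
                exact Set.centralizer_centralizer_centralizer _ }, ?_⟩
    intro x
    change x ∈ Set.centralizer (Set.centralizer (Set.range π) ∪
      star (Set.centralizer (Set.range π))) ↔ _
    rw [hT, Set.union_self, Set.mem_centralizer_iff]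
    constructor
    · intro h y hy
      refine h y ?_
      rw [Set.mem_centralizer_iff]
      rintro _ ⟨a, rfl⟩
      exact (hy a).symm
    · intro h y hy
      refine h y (fun a => ?_)
      rw [Set.mem_centralizer_iff] at hy
      exact (hy (π a) ⟨a, rfl⟩).symm
  -- nets and limits
  have hnet' : ∀ x : W.toStarSubalgebra, ∃ a : Ix E → A, Conv π a (x : E →L[ℂ] E) ∧
      ∀ i, ‖a i‖ ≤ 2 * ‖(x : E →L[ℂ] E)‖ := fun x =>
    hnet A E π x ((hWmem x).mp x.2)
  choose net hnet1 hnet2 using hnet'
  have hTb : ∀ (ξ : H) (b : A), ‖ev u ξ b‖ ≤ c * ‖ξ‖ * ‖b‖ := by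
    intro ξ b
    rw [ev_apply]
    calc ‖u b ξ‖ ≤ ‖u b‖ * ‖ξ‖ := (u b).le_opNorm ξ
      _ ≤ (c * ‖b‖) * ‖ξ‖ := mul_le_mul_of_nonneg_right (hub b) (norm_nonneg _)
      _ = c * ‖ξ‖ * ‖b‖ := by ring
  have hcv : ∀ ξ : H, (∀ a : Ix E → A, Conv π a 0 →
      Tendsto (fun i => u (a i) ξ) atTop (nhds 0)) ∧
      ∀ (a : Ix E → A) (x : E →L[ℂ] E), Conv π a x →
        ∃ y : H, Tendsto (fun i => u (a i) ξ) atTop (nhds y) := fun ξ =>
    hconv A E π hπ H (ev u ξ) (c * ‖ξ‖) (by positivity) (hTb ξ)
  have hlim : ∀ (x : W.toStarSubalgebra) (ξ : H), ∃ y : H,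
      Tendsto (fun i => u (net x i) ξ) atTop (nhds y) := fun x ξ =>
    (hcv ξ).2 (net x) x (hnet1 x)
  choose V hV using hlim
  have key : ∀ (x : W.toStarSubalgebra) (b : Ix E → A), Conv π b (x : E →L[ℂ] E) → ∀ ξ : H,
      Tendsto (fun i => u (b i) ξ) atTop (nhds (V x ξ)) := by
    intro x b hb ξ
    have hc' : Conv π (fun i => b i + (-1 : ℂ) • net x i) 0 := by
      have := conv_add hb (conv_smul (-1) (hnet1 x))
      rwa [neg_one_smul, add_neg_cancel] at this
    have h4 := (hcv ξ).1 _ hc'
    have h5 := h4.add (hV x ξ)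
    rw [zero_add] at h5
    refine h5.congr (fun i => ?_)
    rw [map_add, map_smul, ContinuousLinearMap.add_apply, ContinuousLinearMap.smul_apply,
      neg_one_smul]
    abel
  have huniq : ∀ (x : W.toStarSubalgebra) (ξ : H) (b : Ix E → A) (y : H),
      Conv π b (x : E →L[ℂ] E) → Tendsto (fun i => u (b i) ξ) atTop (nhds y) → V x ξ = y :=
    fun x ξ b y hb hy => tendsto_nhds_unique (key x b hb ξ) hy
  have hVb : ∀ (x : W.toStarSubalgebra) (ξ : H),
      ‖V x ξ‖ ≤ 2 * c * ‖(x : E →L[ℂ] E)‖ * ‖ξ‖ := by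
    intro x ξ
    refine le_of_tendsto (hV x ξ).norm (Eventually.of_forall fun i => ?_)
    calc ‖u (net x i) ξ‖ ≤ ‖u (net x i)‖ * ‖ξ‖ := (u _).le_opNorm ξ
      _ ≤ (c * (2 * ‖(x : E →L[ℂ] E)‖)) * ‖ξ‖ := by
          refine mul_le_mul_of_nonneg_right ((hub _).trans ?_) (norm_nonneg _)
          exact mul_le_mul_of_nonneg_left (hnet2 x i) hc
      _ = 2 * c * ‖(x : E →L[ℂ] E)‖ * ‖ξ‖ := by ring
  let V' : W.toStarSubalgebra → (H →L[ℂ] H) := fun x =>
    LinearMap.mkContinuous
      { toFun := V x
        map_add' := by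
          intro ξ η
          refine huniq x (ξ + η) (net x) _ (hnet1 x) ?_
          refine ((hV x ξ).add (hV x η)).congr (fun i => ?_)
          rw [map_add]
        map_smul' := by
          intro t ξ
          refine huniq x (t • ξ) (net x) _ (hnet1 x) ?_
          rw [RingHom.id_apply]
          refine ((hV x ξ).const_smul t).congr (fun i => ?_)
          rw [map_smul] } (2 * c * ‖(x : E →L[ℂ] E)‖) (hVb x)
  have hV' : ∀ x ξ, V' x ξ = V x ξ := fun x ξ => rfl
  let U : W.toStarSubalgebra →ₗ[ℂ] (H →L[ℂ] H) :=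
    { toFun := V'
      map_add' := by
        intro x y
        ext ξ
        rw [hV', ContinuousLinearMap.add_apply, hV', hV']
        refine huniq (x + y) ξ _ _ (conv_add (hnet1 x) (hnet1 y)) ?_
        refine ((hV x ξ).add (hV y ξ)).congr (fun i => ?_)
        rw [map_add, ContinuousLinearMap.add_apply]
      map_smul' := by
        intro t x
        ext ξ
        rw [hV', RingHom.id_apply, ContinuousLinearMap.smul_apply, hV']
        refine huniq (t • x) ξ _ _ (conv_smul t (hnet1 x)) ?_
        refine ((hV x ξ).const_smul t).congr (fun i => ?_)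
        rw [map_smul, ContinuousLinearMap.smul_apply] }
  have hU : ∀ x ξ, U x ξ = V x ξ := fun x ξ => rfl
  have hmem : ∀ a, π a ∈ W.toStarSubalgebra := by
    intro a
    rw [hWmem]
    intro y hy
    exact hy a
  let π' : A →⋆ₐ[ℂ] W.toStarSubalgebra := π.codRestrict W.toStarSubalgebra hmem
  have hext : ∀ a, U (π' a) = u a := by
    intro a
    ext ξ
    rw [hU]
    exact huniq (π' a) ξ (fun _ => a) _ (conv_const a) tendsto_const_nhds
  refine ⟨E, i1, i2, i3, W, π', U, ⟨?_, ?_⟩, ?_, hext⟩
  · intro x y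
    ext ξ
    rw [ContinuousLinearMap.mul_apply, hU]
    refine huniq (x * y) ξ _ _ (conv_mul (hnet1 x) (hnet1 y)) ?_
    have hbd : ∀ i, ‖u (net x i)‖ ≤ c * (2 * ‖(x : E →L[ℂ] E)‖) :=
      fun i => (hub _).trans (mul_le_mul_of_nonneg_left (hnet2 x i) hc)
    have h4 := tendsto_app (x := U x) hbd (fun ζ => hV x ζ) (hV y ξ)
    refine h4.congr (fun i => ?_)
    rw [hu.mul, ContinuousLinearMap.mul_apply]
  · rw [← map_one π', hext, hu.one]
  · intro x
    exact LinearMap.mkContinuous_norm_le _ (by positivity) (hVb x)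

end H711R2.KM
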