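import Mathlib
import Pool.Agent.H711R2.KM.Props
import Pool.Agent.H467R2.DP.Z3

/-! Task M5 (helper311): averaging over a finite group of central symmetries
(after Z3 of helper467). -/

open scoped ComplexOrder InnerProductSpace ComplexConjugate
open Finset

noncomputable section

namespace H711R2.KM

open H759R2.Kad H711R2.KG H770R2.Kad H710R2.DP

namespace P_M5

section sy

variable {A : Type} [CStarAlgebra A]

theorem sy_sq {p : A} (hp : IsPrj p) : (1 - (2 : ℂ) • p) * (1 - (2 : ℂ) • p) = 1 := by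
  have h : p * p = p := hp.2
  have h1 : (2 : ℂ) • p = p + p := two_smul ℂ p
  rw [h1]
  have h2 : (1 - (p + p)) * (1 - (p + p)) = 1 - 4 * p + 4 * (p * p) := by noncomm_ring
  rw [h2, h]; noncomm_ring

theorem sy_star {p : A} (hp : IsPrj p) : star (1 - (2 : ℂ) • p) = 1 - (2 : ℂ) • p := by
  have h : star p = p := hp.1
  have h1 : (2 : ℂ) • p = p + p := two_smul ℂ p
  rw [h1, star_sub, star_add, h, star_one]

theorem norm_sa {x : A} (h1 : star x = x) (h2 : x * x = 1) (h3 : ‖(1 : A)‖ ≤ 1) : ‖x‖ ≤ 1 := by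
  have h := CStarRing.norm_star_mul_self (x := x)
  rw [h1, h2] at h
  have h0 := norm_nonneg x
  nlinarith [h, h3, h0]

end sy

end P_M5

open P_M5 ZZ3 in
theorem p_M_fin : M_fin := by
  classical
  intro E _ _ _ W H _ _ _ U hU c hc hUb F hF
  let A := W.toStarSubalgebra
  let ι := {x // x ∈ F}
  let sA : ι → A := fun i => 1 - (2 : ℂ) • (i : A)
  have hcen : ∀ i : ι, sA i ∈ Submonoid.center A := by
    intro i
    rw [Submonoid.mem_center_iff]
    intro a
    show a * (1 - (2 : ℂ) • (i : A)) = (1 - (2 : ℂ) • (i : A)) * a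
    rw [mul_sub, sub_mul, mul_one, one_mul, mul_smul_comm, smul_mul_assoc, (hF i i.2).2 a]
  let s : ι → Submonoid.center A := fun i => ⟨sA i, hcen i⟩
  have hsA : ∀ i, sA i * sA i = 1 := fun i => sy_sq (hF i i.2).1
  have hs : ∀ i, s i * s i = 1 := fun i => Subtype.ext (hsA i)
  let v : Finset ι → A := fun S => ((us s S : Submonoid.center A) : A)
  have v_sq : ∀ S, v S * v S = 1 := by
    intro S
    exact congrArg (fun z : Submonoid.center A => (z : A)) (us_sq s hs S)
  have v_flp : ∀ q S, v (flp q S) = sA q * v S := by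
    intro q S
    exact congrArg (fun z : Submonoid.center A => (z : A)) (us_flp s hs q S)
  have v_cen : ∀ S (a : A), a * v S = v S * a := by
    intro S a
    exact (Submonoid.mem_center_iff.1 (us s S).2) a
  have one_norm : ‖(1 : A)‖ ≤ 1 := by
    show ‖(1 : E →L[ℂ] E)‖ ≤ 1
    exact ContinuousLinearMap.norm_id_le
  have v_norm : ∀ S, ‖v S‖ ≤ 1 := by
    intro S
    show ‖((us s S : Submonoid.center A) : A)‖ ≤ 1
    unfold us
    apply Finset.prod_induction s (fun z : Submonoid.center A => ‖(z : A)‖ ≤ 1)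
    · intro a b ha hb
      show ‖(a : A) * (b : A)‖ ≤ 1
      calc ‖(a : A) * (b : A)‖ ≤ ‖(a : A)‖ * ‖(b : A)‖ := norm_mul_le _ _
        _ ≤ 1 * 1 := mul_le_mul ha hb (norm_nonneg _) zero_le_one
        _ = 1 := one_mul 1
    · exact one_norm
    · intro i _
      exact norm_sa (sy_star (hF i i.2).1) (hsA i) one_norm
  have U_norm : ∀ S, ‖U (v S)‖ ≤ c := by
    intro S
    calc ‖U (v S)‖ ≤ c * ‖v S‖ := hUb _
      _ ≤ c * 1 := mul_le_mul_of_nonneg_left (v_norm S) (by linarith)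
      _ = c := mul_one c
  have c0 : 0 < c := by linarith
  obtain ⟨N, hN⟩ : ∃ N : ℕ, N = Fintype.card (Finset ι) := ⟨_, rfl⟩
  have hN1 : 0 < N := by rw [hN]; exact Fintype.card_pos
  have hNr : (0 : ℝ) < N := by exact_mod_cast hN1
  let T : H →L[ℂ] H := (((N : ℝ)⁻¹ : ℝ) : ℂ) • ∑ S : Finset ι, star (U (v S)) * U (v S)
  have hin : ∀ ξ : H, (⟪ξ, T ξ⟫_ℂ).re = (N : ℝ)⁻¹ * ∑ S : Finset ι, ‖U (v S) ξ‖ ^ 2 := by
    intro ξ
    show (⟪ξ, ((((N : ℝ)⁻¹ : ℝ) : ℂ) • ∑ S : Finset ι, star (U (v S)) * U (v S)) ξ⟫_ℂ).re = _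
    rw [ContinuousLinearMap.smul_apply, inner_smul_right, Complex.re_ofReal_mul,
      _root_.sum_apply, inner_sum, Complex.re_sum]
    congr 1
    refine Finset.sum_congr rfl fun S _ => ?_
    have : (star (U (v S)) * U (v S)) ξ = (ContinuousLinearMap.adjoint (U (v S))) (U (v S) ξ) := rfl
    rw [this, ContinuousLinearMap.adjoint_inner_right, inner_self_eq_norm_sq_to_K]
    norm_cast
  refine ⟨T, ?_, ?_, ?_⟩
  · show star T = T
    show star ((((N : ℝ)⁻¹ : ℝ) : ℂ) • ∑ S : Finset ι, star (U (v S)) * U (v S)) = _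
    rw [star_smul, star_sum]
    congr 1
    · exact Complex.conj_ofReal _
    · refine Finset.sum_congr rfl fun S _ => ?_
      rw [star_mul, star_star]
  · intro ξ
    rw [hin ξ]
    have hcard : ∑ _S : Finset ι, (1 : ℝ) = N := by
      rw [Finset.sum_const, Finset.card_univ, ← hN]; simp
    constructor
    · rw [le_inv_mul_iff₀ hNr, ← hcard, Finset.sum_mul]
      refine Finset.sum_le_sum fun S _ => ?_
      rw [one_mul, inv_mul_le_iff₀ (by positivity), ← mul_pow]
      apply pow_le_pow_left₀ (norm_nonneg _)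
      have h1 : ξ = U (v S) (U (v S) ξ) := by
        have h2 : (U (v S) * U (v S)) ξ = ξ := by
          rw [← hU.mul, v_sq S, hU.one]; rfl
        exact h2.symm
      calc ‖ξ‖ = ‖U (v S) (U (v S) ξ)‖ := congrArg norm h1
        _ ≤ ‖U (v S)‖ * ‖U (v S) ξ‖ := ContinuousLinearMap.le_opNorm _ _
        _ ≤ c * ‖U (v S) ξ‖ := mul_le_mul_of_nonneg_right (U_norm S) (norm_nonneg _)
    · rw [inv_mul_le_iff₀ hNr, ← hcard, Finset.sum_mul]
      refine Finset.sum_le_sum fun S _ => ?_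
      rw [one_mul, ← mul_pow]
      apply pow_le_pow_left₀ (norm_nonneg _)
      calc ‖U (v S) ξ‖ ≤ ‖U (v S)‖ * ‖ξ‖ := ContinuousLinearMap.le_opNorm _ _
        _ ≤ c * ‖ξ‖ := mul_le_mul_of_nonneg_right (U_norm S) (norm_nonneg _)
  · intro p hp
    let q : ι := ⟨p, hp⟩
    show star (U (sA q)) * ((((N : ℝ)⁻¹ : ℝ) : ℂ) • ∑ S : Finset ι, star (U (v S)) * U (v S)) *
      U (sA q) = (((N : ℝ)⁻¹ : ℝ) : ℂ) • ∑ S : Finset ι, star (U (v S)) * U (v S)
    have h1 : ∑ S : Finset ι, star (U (v S)) * U (v S) =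
        ∑ S : Finset ι, star (U (v (flp q S))) * U (v (flp q S)) :=
      (Equiv.sum_comp (flp_inv q).toPerm (fun S => star (U (v S)) * U (v S))).symm
    rw [mul_smul_comm, smul_mul_assoc]
    congr 1
    conv_rhs => rw [h1]
    rw [Finset.mul_sum, Finset.sum_mul]
    refine Finset.sum_congr rfl fun S _ => ?_
    rw [v_flp, v_cen S (sA q), hU.mul, star_mul]
    simp only [mul_assoc]

end H711R2.KM
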