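import Mathlib
import Pool.Agent.H711R2.KM.Props
import Pool.Agent.H989R2.Kad4.Root

/-!
# Task M6: a similarity that makes the homomorphism *-preserving on the centre (helper594)
-/

open scoped ComplexOrder InnerProductSpace ComplexConjugate
open Finset

noncomputable section

namespace H711R2.KM

open H759R2.Kad H711R2.KG H770R2.Kad H710R2.DP

namespace P_M6

open Filter

variable {H : Type} [NormedAddCommGroup H] [InnerProductSpace ℂ H] [CompleteSpace H]

theorem norm_le_of_form {C : ℝ} (hC : 1 ≤ C) (P : H →L[ℂ] H) (hP : IsSelfAdjoint P)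
    (hb : ∀ ξ, C⁻¹ * ‖ξ‖ ^ 2 ≤ (⟪ξ, P ξ⟫_ℂ).re ∧ (⟪ξ, P ξ⟫_ℂ).re ≤ C * ‖ξ‖ ^ 2) :
    ‖P‖ ≤ C := by
  obtain ⟨S, S', -, -, -, -, hsq, n1, -⟩ := S07.exists_root hC P hP hb
  calc ‖P‖ = ‖S * S‖ := by rw [hsq]
    _ ≤ ‖S‖ * ‖S‖ := norm_mul_le _ _
    _ = ‖S‖ ^ 2 := by ring
    _ ≤ C := n1

/-- the weak limit of the averages -/
theorem exists_lim (hw : G_wlim.{0}) {J : Type} (c : ℝ) (hc : 1 ≤ c)
    (s : J → (H →L[ℂ] H)) (PF : Finset J → (H →L[ℂ] H)) (hsa : ∀ F, IsSelfAdjoint (PF F))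
    (hb : ∀ F ξ, (c ^ 2)⁻¹ * ‖ξ‖ ^ 2 ≤ (⟪ξ, PF F ξ⟫_ℂ).re ∧
      (⟪ξ, PF F ξ⟫_ℂ).re ≤ c ^ 2 * ‖ξ‖ ^ 2)
    (hinv : ∀ F, ∀ j ∈ F, star (s j) * PF F * s j = PF F) :
    ∃ P : H →L[ℂ] H, IsSelfAdjoint P ∧
      (∀ ξ, (c ^ 2)⁻¹ * ‖ξ‖ ^ 2 ≤ (⟪ξ, P ξ⟫_ℂ).re ∧ (⟪ξ, P ξ⟫_ℂ).re ≤ c ^ 2 * ‖ξ‖ ^ 2) ∧
      ∀ j, star (s j) * P * s j = P := by
  classical
  have hc2 : 1 ≤ c ^ 2 := one_le_pow₀ hc
  let V : Ultrafilter (Finset J) := Ultrafilter.of atTop
  have hV : (V : Filter (Finset J)) ≤ atTop := Ultrafilter.of_le atTop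
  obtain ⟨P, -, hP⟩ := hw H (Finset J) V PF (c ^ 2) (by positivity)
    (fun F => norm_le_of_form hc2 _ (hsa F) (hb F))
  have hre : ∀ ξ η, Filter.Tendsto (fun F => (⟪η, PF F ξ⟫_ℂ).re) V (nhds (⟪η, P ξ⟫_ℂ).re) :=
    fun ξ η => (Complex.continuous_re.tendsto _).comp (hP ξ η)
  refine ⟨P, ?_, fun ξ => ⟨?_, ?_⟩, fun j => ?_⟩
  · rw [ContinuousLinearMap.isSelfAdjoint_iff_isSymmetric]
    intro x y
    show ⟪P x, y⟫_ℂ = ⟪x, P y⟫_ℂ
    have h1 := hP y x
    have h2 : Filter.Tendsto (fun F => conj (⟪y, PF F x⟫_ℂ)) V (nhds (conj (⟪y, P x⟫_ℂ))) :=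
      (Complex.continuous_conj.tendsto _).comp (hP x y)
    have h3 : (fun F => conj (⟪y, PF F x⟫_ℂ)) = fun F => ⟪x, PF F y⟫_ℂ := by
      funext F
      rw [inner_conj_symm]
      have := (ContinuousLinearMap.isSelfAdjoint_iff_isSymmetric.1 (hsa F)) x y
      exact this
    rw [h3, inner_conj_symm] at h2
    exact tendsto_nhds_unique h2 h1
  · exact ge_of_tendsto (hre ξ ξ) (Filter.Eventually.of_forall fun F => (hb F ξ).1)
  · exact le_of_tendsto (hre ξ ξ) (Filter.Eventually.of_forall fun F => (hb F ξ).2)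
  · have key : ∀ ξ η, ⟪η, (star (s j) * P * s j) ξ⟫_ℂ = ⟪η, P ξ⟫_ℂ := by
      intro ξ η
      have e1 : ∀ T : H →L[ℂ] H, ⟪η, (star (s j) * T * s j) ξ⟫_ℂ = ⟪s j η, T (s j ξ)⟫_ℂ := by
        intro T
        rw [mul_apply_eq_comp, mul_apply_eq_comp, ContinuousLinearMap.star_eq_adjoint,
          ContinuousLinearMap.adjoint_inner_right]
      rw [e1]
      have h1 := hP (s j ξ) (s j η)
      have h2 := hP ξ η
      have hev : ∀ᶠ F in (V : Filter (Finset J)), ⟪s j η, PF F (s j ξ)⟫_ℂ = ⟪η, PF F ξ⟫_ℂ := by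
        have h3 : ∀ᶠ F in (atTop : Filter (Finset J)), j ∈ F := by
          filter_upwards [eventually_ge_atTop ({j} : Finset J)] with F hF
          exact hF (Finset.mem_singleton_self j)
        filter_upwards [hV h3] with F hF
        rw [← e1, hinv F j hF]
      exact tendsto_nhds_unique (h1.congr' hev) h2
    ext ξ
    exact ext_inner_left ℂ fun η => key ξ η

end P_M6

open P_M6 in
theorem p_M_cen (hfin : M_fin) (hw : G_wlim.{0}) (hz : Z_span) : M_cen := by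
  classical
  intro E _ _ _ W H _ _ _ U hU c hc hcb
  have hc2 : 1 ≤ c ^ 2 := one_le_pow₀ hc
  have hc0 : 0 ≤ c := by linarith
  let J : Type := {p : W.toStarSubalgebra // IsPrj p ∧ ∀ a, p * a = a * p}
  have hF : ∀ F : Finset J, ∃ P : H →L[ℂ] H, IsSelfAdjoint P ∧
      (∀ ξ, (c ^ 2)⁻¹ * ‖ξ‖ ^ 2 ≤ (⟪ξ, P ξ⟫_ℂ).re ∧ (⟪ξ, P ξ⟫_ℂ).re ≤ c ^ 2 * ‖ξ‖ ^ 2) ∧
      ∀ j ∈ F, star (U (1 - (2 : ℂ) • j.1)) * P * U (1 - (2 : ℂ) • j.1) = P := by
    intro F
    obtain ⟨P, h1, h2, h3⟩ := hfin E W H U hU c hc hcb (F.image Subtype.val) (by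
      intro p hp
      obtain ⟨j, -, rfl⟩ := Finset.mem_image.1 hp
      exact j.2)
    exact ⟨P, h1, h2, fun j hj => h3 j.1 (Finset.mem_image_of_mem _ hj)⟩
  choose PF hsa hb hinv using hF
  obtain ⟨P, hPs, hPb, hPi⟩ := exists_lim hw c hc
    (fun j : J => U (1 - (2 : ℂ) • j.1)) PF hsa hb hinv
  obtain ⟨S, S', e1, e2, hS, hS', hsq, n1, n2⟩ := S07.exists_root hc2 P hPs hPb
  have nS : ‖S‖ ≤ c := le_of_sq_le_sq n1 hc0
  have nS' : ‖S'‖ ≤ c := le_of_sq_le_sq n2 hc0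
  refine ⟨S, S', e1, e2, nS, nS', ?_⟩
  -- central projections
  have hproj : ∀ j : J, star (S * U j.1 * S') = S * U j.1 * S' := by
    intro j
    obtain ⟨p, hp, hpc⟩ := j
    show star (S * U p * S') = S * U p * S'
    have h1 : star (U (1 - (2 : ℂ) • p)) * P * U (1 - (2 : ℂ) • p) = P := hPi ⟨p, hp, hpc⟩
    set g := U (1 - (2 : ℂ) • p) with hg
    have hgg : g * g = 1 := by
      rw [hg, ← hU.mul, ← hU.one]
      congr 1
      have : (1 - (2 : ℂ) • p) * (1 - (2 : ℂ) • p) =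
          1 - (2 : ℂ) • p - (2 : ℂ) • p + (4 : ℂ) • (p * p) := by
        rw [mul_sub, mul_one, sub_mul, one_mul, smul_mul_smul_comm]
        norm_num
        abel
      rw [this, hp.2]
      module
    have h2 : star g * P = P * g := by
      calc star g * P = star g * P * (g * g) := by rw [hgg, mul_one]
        _ = (star g * P * g) * g := by simp only [mul_assoc]
        _ = P * g := by rw [h1]
    have h3 : star (S * g * S') = S * g * S' := by
      calc star (S * g * S') = S' * (star g * S) := by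
            rw [star_mul, star_mul, hS, hS']
        _ = S' * (star g * (S * (S * S'))) := by rw [e1, mul_one]
        _ = S' * (star g * P) * S' := by rw [← hsq]; simp only [mul_assoc]
        _ = S' * (P * g) * S' := by rw [h2]
        _ = (S' * S) * S * g * S' := by rw [← hsq]; simp only [mul_assoc]
        _ = S * g * S' := by rw [e2, one_mul]
    have h4 : g = 1 - (2 : ℂ) • U p := by
      rw [hg, map_sub, map_smul, hU.one]
    have h5 : S * g * S' = 1 - (2 : ℂ) • (S * U p * S') := by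
      rw [h4, mul_sub, sub_mul, mul_one, e1, mul_smul_comm, smul_mul_assoc]
    rw [h5, star_sub, star_one, star_smul] at h3
    have h6 := sub_right_injective h3
    have h7 : star (2 : ℂ) = 2 := by
      rw [Complex.star_def]; exact Complex.conj_ofNat 2
    rw [h7] at h6
    exact smul_right_injective _ (two_ne_zero : (2 : ℂ) ≠ 0) h6
  intro z hzc
  -- approximation
  have hcomm : ∀ a : E →L[ℂ] E, a ∈ W → (z : E →L[ℂ] E) * a = a * (z : E →L[ℂ] E) := by
    intro a ha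
    have := hzc ⟨a, ha⟩
    exact congrArg Subtype.val this
  have hbd : ∀ x : W.toStarSubalgebra, ‖S * U x * S'‖ ≤ c ^ 3 * ‖x‖ := by
    intro x
    calc ‖S * U x * S'‖ ≤ ‖S‖ * ‖U x‖ * ‖S'‖ :=
          (norm_mul_le _ _).trans (mul_le_mul_of_nonneg_right (norm_mul_le _ _) (norm_nonneg _))
      _ ≤ c * (c * ‖x‖) * c := by
          have := hcb x
          gcongr
      _ = c ^ 3 * ‖x‖ := by ring
  have key : ∀ ε : ℝ, 0 < ε → ‖star (S * U z * S') - S * U (star z) * S'‖ ≤ 2 * c ^ 3 * ε := by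
    intro ε hε
    obtain ⟨n, d, p, hp, hzp⟩ := hz E W (z : E →L[ℂ] E) ⟨z.2, hcomm⟩ ε hε
    let q : Fin n → W.toStarSubalgebra := fun k => ⟨p k, (hp k).2.1⟩
    have hq : ∀ k, IsPrj (q k) ∧ ∀ a, q k * a = a * q k := by
      intro k
      refine ⟨⟨Subtype.ext (hp k).1.1, Subtype.ext (hp k).1.2⟩, fun a => ?_⟩
      exact Subtype.ext ((hp k).2.2 a.1 a.2)
    let z' : W.toStarSubalgebra := ∑ k, d k • q k
    have hz' : ((z' : W.toStarSubalgebra) : E →L[ℂ] E) = ∑ k, d k • p k := by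
      show ((∑ k, d k • q k : W.toStarSubalgebra) : E →L[ℂ] E) = _
      rw [AddSubmonoidClass.coe_finsetSum]
      rfl
    have hzz : ‖z - z'‖ ≤ ε := by
      have : ‖((z - z' : W.toStarSubalgebra) : E →L[ℂ] E)‖ ≤ ε := by
        have e : ((z - z' : W.toStarSubalgebra) : E →L[ℂ] E) =
            (z : E →L[ℂ] E) - ∑ k, d k • p k := by
          rw [← hz']; rfl
        rw [e]; exact hzp
      exact this
    have hstar : star z' = ∑ k, star (d k) • q k := by
      show star (∑ k, d k • q k) = _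
      rw [star_sum]
      refine Finset.sum_congr rfl fun k _ => ?_
      rw [star_smul, (hq k).1.1]
    have h1 : star (S * U z' * S') = S * U (star z') * S' := by
      rw [hstar]
      show star (S * U (∑ k, d k • q k) * S') = _
      rw [map_sum, map_sum, Finset.mul_sum, Finset.mul_sum, Finset.sum_mul, Finset.sum_mul,
        star_sum]
      refine Finset.sum_congr rfl fun k _ => ?_
      rw [map_smul, map_smul, mul_smul_comm, smul_mul_assoc, mul_smul_comm, smul_mul_assoc,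
        star_smul]
      congr 1
      exact hproj ⟨q k, hq k⟩
    have h2 : star (S * U z * S') - S * U (star z) * S' =
        star (S * U (z - z') * S') - S * U (star (z - z')) * S' := by
      rw [star_sub (R := W.toStarSubalgebra), map_sub, map_sub, mul_sub, mul_sub, sub_mul, sub_mul,
        star_sub, h1]
      abel
    rw [h2]
    calc ‖star (S * U (z - z') * S') - S * U (star (z - z')) * S'‖
        ≤ ‖star (S * U (z - z') * S')‖ + ‖S * U (star (z - z')) * S'‖ := norm_sub_le _ _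
      _ ≤ c ^ 3 * ‖z - z'‖ + c ^ 3 * ‖z - z'‖ := by
          rw [norm_star]
          refine add_le_add (hbd _) ((hbd _).trans ?_)
          rw [norm_star]
      _ ≤ c ^ 3 * ε + c ^ 3 * ε := by gcongr
      _ = 2 * c ^ 3 * ε := by ring
  have hlim : ‖star (S * U z * S') - S * U (star z) * S'‖ ≤ 0 := by
    refine le_of_forall_pos_le_add fun δ hδ => ?_
    have h := key (δ / (2 * c ^ 3)) (by positivity)
    rw [zero_add]
    refine h.trans (le_of_eq ?_)
    field_simp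
  exact sub_eq_zero.1 (norm_le_zero_iff.1 hlim)

end H711R2.KM
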