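import Mathlib
import Pool.Agent.H711R2.KM.Props

/-!
M7: the quotient of a C*-algebra by the kernel of a bounded homomorphism.
-/

set_option autoImplicit false

open scoped ComplexOrder InnerProductSpace ComplexConjugate

noncomputable section

namespace H711R2.KM

open H759R2.Kad H711R2.KG H770R2.Kad H710R2.DP

namespace P_M7

/-! ### approximation in closed ideals -/

theorem approx {A : Type} [CStarAlgebra A] (I : Submodule ℂ A)
    (hr : ∀ a : A, ∀ x ∈ I, x * a ∈ I) (y : A) (hy : star y * y ∈ I) (ε : ℝ) (hε : 0 < ε) :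
    ∃ z ∈ I, star z = z ∧ ‖1 - z‖ ≤ 1 ∧ ‖y - y * z‖ < ε := by
  obtain ⟨q, hq⟩ : ∃ q, q = star y * y := ⟨_, rfl⟩
  rw [← hq] at hy
  have hqs : IsSelfAdjoint q := by rw [hq]; exact IsSelfAdjoint.star_mul_self y
  have hsp : ∀ t ∈ spectrum ℝ q, 0 ≤ t := by
    rw [hq]; exact spectrum_star_mul_self_nonneg
  obtain ⟨δ, hδ, hδε⟩ : ∃ δ : ℝ, 0 < δ ∧ δ < ε ^ 2 := ⟨ε ^ 2 / 2, by positivity, by
    have : 0 < ε ^ 2 := by positivity
    linarith⟩
  have hden : ∀ t ∈ spectrum ℝ q, δ + t ≠ 0 := fun t ht => by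
    have := hsp t ht; positivity
  have hc1 : ContinuousOn (fun t : ℝ => δ + t) (spectrum ℝ q) := by fun_prop
  have hcg : ContinuousOn (fun t : ℝ => δ / (δ + t)) (spectrum ℝ q) :=
    continuousOn_const.div hc1 hden
  have hch : ContinuousOn (fun t : ℝ => 1 / (δ + t)) (spectrum ℝ q) :=
    continuousOn_const.div hc1 hden
  have hid : ContinuousOn (fun t : ℝ => t) (spectrum ℝ q) := continuousOn_id
  obtain ⟨z, hz⟩ : ∃ z, z = q * cfc (fun t : ℝ => 1 / (δ + t)) q := ⟨_, rfl⟩
  have hz1 : z = cfc (fun t : ℝ => t / (δ + t)) q := by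
    have h1 : cfc (fun t : ℝ => t) q = q := cfc_id' ℝ q
    have h2 : cfc (fun t : ℝ => t / (δ + t)) q =
        cfc (fun t : ℝ => t) q * cfc (fun t : ℝ => 1 / (δ + t)) q := by
      rw [← cfc_mul (fun t : ℝ => t) (fun t : ℝ => 1 / (δ + t)) q hid hch]
      congr 1
      funext t
      ring
    rw [hz, h2, h1]
  have hzs : IsSelfAdjoint z := by rw [hz1]; exact cfc_predicate _ q
  have h1z : 1 - z = cfc (fun t : ℝ => δ / (δ + t)) q := by
    have hcf : ContinuousOn (fun t : ℝ => t / (δ + t)) (spectrum ℝ q) := hid.div hc1 hden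
    rw [hz1, ← cfc_const_one ℝ q, ← cfc_sub (fun _ : ℝ => (1 : ℝ)) (fun t : ℝ => t / (δ + t)) q
      continuousOn_const hcf]
    apply cfc_congr
    intro t ht
    have := hden t ht
    simp only
    field_simp
    ring
  refine ⟨z, by rw [hz]; exact hr _ _ hy, hzs, ?_, ?_⟩
  · rw [h1z]
    refine norm_cfc_le zero_le_one ?_
    intro t ht
    have h2 := hsp t ht
    rw [Real.norm_eq_abs, abs_of_nonneg (by positivity), div_le_one (by positivity)]
    linarith
  · have e1 : y - y * z = y * (1 - z) := by rw [mul_sub, mul_one]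
    have h1zs : star (1 - z) = 1 - z := by rw [star_sub, star_one, hzs.star_eq]
    have e2 : star (y - y * z) * (y - y * z) = (1 - z) * q * (1 - z) := by
      rw [e1, star_mul, h1zs, hq]
      simp only [mul_assoc]
    have e3 : (1 - z) * q * (1 - z) = cfc (fun t : ℝ => δ / (δ + t) * t * (δ / (δ + t))) q := by
      rw [cfc_mul (fun t : ℝ => δ / (δ + t) * t) (fun t : ℝ => δ / (δ + t)) q (hcg.mul hid) hcg,
        cfc_mul (fun t : ℝ => δ / (δ + t)) (fun t : ℝ => t) q hcg hid, ← h1z, cfc_id' ℝ q]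
    have e4 : ‖y - y * z‖ * ‖y - y * z‖ ≤ δ := by
      rw [← CStarRing.norm_star_mul_self, e2, e3]
      refine norm_cfc_le hδ.le ?_
      intro t ht
      have h2 := hsp t ht
      have h3 : 0 < δ + t := by positivity
      rw [Real.norm_eq_abs, abs_of_nonneg (by positivity)]
      have h4 : δ / (δ + t) * t * (δ / (δ + t)) = δ * (δ * t / (δ + t) ^ 2) := by
        field_simp
      rw [h4]
      have h5 : δ * t / (δ + t) ^ 2 ≤ 1 := by
        rw [div_le_one (by positivity)]
        nlinarith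
      nlinarith
    have h5 : ‖y - y * z‖ * ‖y - y * z‖ < ε * ε := by
      calc _ ≤ δ := e4
        _ < ε ^ 2 := hδε
        _ = ε * ε := by ring
    exact lt_of_mul_self_lt_mul_self₀ hε.le h5

/-! ### the quotient -/

structure Good {A : Type} [CStarAlgebra A] (I : Submodule ℂ A) : Prop where
  closed : IsClosed (I : Set A)
  hl : ∀ a : A, ∀ x ∈ I, a * x ∈ I
  hr : ∀ a : A, ∀ x ∈ I, x * a ∈ I
  hs : ∀ x ∈ I, star x ∈ I

theorem good_of {A : Type} [CStarAlgebra A] (I : Submodule ℂ A) (hc : IsClosed (I : Set A))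
    (hl : ∀ a : A, ∀ x ∈ I, a * x ∈ I) (hr : ∀ a : A, ∀ x ∈ I, x * a ∈ I) : Good I := by
  refine ⟨hc, hl, hr, fun x hx => ?_⟩
  have hmem : star x ∈ closure (I : Set A) := by
    rw [Metric.mem_closure_iff]
    intro ε hε
    obtain ⟨z, hz, -, -, h3⟩ := approx I hr (star x) (by rw [star_star]; exact hr _ _ hx) ε hε
    exact ⟨star x * z, hl _ _ hz, by rw [dist_eq_norm]; exact h3⟩
  rwa [hc.closure_eq] at hmem

theorem Good.hap {A : Type} [CStarAlgebra A] {I : Submodule ℂ A} (H : Good I) (x : A)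
    (hx : x ∈ I) (ε : ℝ) (hε : 0 < ε) :
    ∃ z ∈ I, star z = z ∧ ‖1 - z‖ ≤ 1 ∧ ‖x - x * z‖ < ε :=
  approx I H.hr x (H.hl _ _ hx) ε hε

variable {A : Type} [CStarAlgebra A] {I : Submodule ℂ A}

def mulQ (H : Good I) : (A ⧸ I) → (A ⧸ I) → (A ⧸ I) :=
  Quotient.map₂ (fun a b => a * b) (by
    intro a₁ a₂ ha b₁ b₂ hb
    have ha' : a₁ - a₂ ∈ I := (Submodule.quotientRel_def I).1 ha
    have hb' : b₁ - b₂ ∈ I := (Submodule.quotientRel_def I).1 hb
    refine (Submodule.quotientRel_def I).2 ?_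
    have : a₁ * b₁ - a₂ * b₂ = (a₁ - a₂) * b₁ + a₂ * (b₁ - b₂) := by
      simp [mul_sub, sub_mul]
    show a₁ * b₁ - a₂ * b₂ ∈ I
    rw [this]
    exact I.add_mem (H.hr _ _ ha') (H.hl _ _ hb'))

def starQ (H : Good I) : (A ⧸ I) → (A ⧸ I) :=
  Quotient.map (fun a => star a) (by
    intro a₁ a₂ ha
    have ha' : a₁ - a₂ ∈ I := (Submodule.quotientRel_def I).1 ha
    refine (Submodule.quotientRel_def I).2 ?_
    show star a₁ - star a₂ ∈ I
    rw [← star_sub]
    exact H.hs _ ha')

/-- the quotient, as a fresh type -/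
def Q (_H : Good I) : Type := A ⧸ I

noncomputable instance (H : Good I) : NormedAddCommGroup (Q H) :=
  haveI : IsClosed (I : Set A) := H.closed
  (Submodule.Quotient.normedAddCommGroup I : NormedAddCommGroup (A ⧸ I))

noncomputable instance instSMul (H : Good I) : SMul ℂ (Q H) :=
  ⟨fun c x => ((c • (show A ⧸ I from x) : A ⧸ I) : Q H)⟩

theorem norm_smul_Q (H : Good I) (c : ℂ) (x : Q H) : ‖c • x‖ ≤ ‖c‖ * ‖x‖ := by
  haveI : IsClosed (I : Set A) := H.closed
  exact norm_smul_le c (show A ⧸ I from x)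

instance (H : Good I) : CompleteSpace (Q H) :=
  haveI : IsClosed (I : Set A) := H.closed
  (Submodule.Quotient.completeSpace I : CompleteSpace (A ⧸ I))

def mk (H : Good I) (a : A) : Q H := (Submodule.Quotient.mk a : A ⧸ I)

theorem mk_surj (H : Good I) : Function.Surjective (mk H) := Submodule.Quotient.mk_surjective I

theorem mk_add (H : Good I) (a b : A) : mk H (a + b) = mk H a + mk H b := rfl
theorem mk_sub (H : Good I) (a b : A) : mk H (a - b) = mk H a - mk H b := rfl
theorem mk_smul (H : Good I) (c : ℂ) (b : A) : mk H (c • b) = c • mk H b := rfl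
theorem mk_zero (H : Good I) : mk H 0 = 0 := rfl

theorem mk_eq (H : Good I) (a b : A) : mk H a = mk H b ↔ a - b ∈ I := Submodule.Quotient.eq I

theorem norm_mk_le (H : Good I) (a : A) : ‖mk H a‖ ≤ ‖a‖ := Submodule.Quotient.norm_mk_le I a

theorem exists_rep (H : Good I) (x : Q H) {ε : ℝ} (hε : 0 < ε) :
    ∃ m : A, mk H m = x ∧ ‖m‖ < ‖x‖ + ε := Submodule.Quotient.norm_mk_lt (S := I) x hε

instance (H : Good I) : Mul (Q H) := ⟨mulQ H⟩
instance (H : Good I) : One (Q H) := ⟨mk H 1⟩
instance (H : Good I) : Star (Q H) := ⟨starQ H⟩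

theorem mk_mul (H : Good I) (a b : A) : mk H (a * b) = mk H a * mk H b := rfl
theorem mk_star (H : Good I) (a : A) : mk H (star a) = star (mk H a) := rfl
theorem mk_one (H : Good I) : mk H 1 = 1 := rfl

noncomputable instance instRing (H : Good I) : Ring (Q H) :=
  { (inferInstance : NormedAddCommGroup (Q H)), (inferInstance : Mul (Q H)),
    (inferInstance : One (Q H)) with
    left_distrib := by
      intro x y z
      obtain ⟨a, rfl⟩ := mk_surj H x
      obtain ⟨b, rfl⟩ := mk_surj H y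
      obtain ⟨c, rfl⟩ := mk_surj H z
      rw [← mk_add, ← mk_mul, ← mk_mul, ← mk_mul, ← mk_add, mul_add]
    right_distrib := by
      intro x y z
      obtain ⟨a, rfl⟩ := mk_surj H x
      obtain ⟨b, rfl⟩ := mk_surj H y
      obtain ⟨c, rfl⟩ := mk_surj H z
      rw [← mk_add, ← mk_mul, ← mk_mul, ← mk_mul, ← mk_add, add_mul]
    zero_mul := by
      intro x
      obtain ⟨a, rfl⟩ := mk_surj H x
      show mk H 0 * mk H a = mk H 0
      rw [← mk_mul, zero_mul]
    mul_zero := by
      intro x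
      obtain ⟨a, rfl⟩ := mk_surj H x
      show mk H a * mk H 0 = mk H 0
      rw [← mk_mul, mul_zero]
    mul_assoc := by
      intro x y z
      obtain ⟨a, rfl⟩ := mk_surj H x
      obtain ⟨b, rfl⟩ := mk_surj H y
      obtain ⟨c, rfl⟩ := mk_surj H z
      rw [← mk_mul, ← mk_mul, ← mk_mul, ← mk_mul, mul_assoc]
    one_mul := by
      intro x
      obtain ⟨a, rfl⟩ := mk_surj H x
      rw [← mk_one, ← mk_mul, one_mul]
    mul_one := by
      intro x
      obtain ⟨a, rfl⟩ := mk_surj H x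
      rw [← mk_one, ← mk_mul, mul_one] }

noncomputable instance instNormedRing (H : Good I) : NormedRing (Q H) :=
  { (inferInstance : NormedAddCommGroup (Q H)), instRing H with
    norm_mul_le := by
      intro x y
      apply le_of_forall_pos_le_add
      intro ε hε
      have hc : Filter.Tendsto (fun δ : ℝ => (‖x‖ + δ) * (‖y‖ + δ)) (nhds 0)
          (nhds ((‖x‖ + 0) * (‖y‖ + 0))) := by
        apply Continuous.tendsto
        fun_prop
      have hev : ∀ᶠ δ in nhdsWithin (0 : ℝ) (Set.Ioi 0), (‖x‖ + δ) * (‖y‖ + δ) < ‖x‖ * ‖y‖ + ε := by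
        have h2 := (hc.mono_left (nhdsWithin_le_nhds (s := Set.Ioi (0 : ℝ))))
        apply h2.eventually_lt_const
        simp only [add_zero]
        linarith
      obtain ⟨δ, hδ, hδ0⟩ := (hev.and self_mem_nhdsWithin).exists
      have hδ0' : (0 : ℝ) < δ := hδ0
      obtain ⟨a, ha, ha'⟩ := exists_rep H x hδ0'
      obtain ⟨b, hb, hb'⟩ := exists_rep H y hδ0'
      calc ‖x * y‖ = ‖mk H (a * b)‖ := by rw [mk_mul, ha, hb]
        _ ≤ ‖a * b‖ := norm_mk_le H _
        _ ≤ ‖a‖ * ‖b‖ := norm_mul_le _ _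
        _ ≤ (‖x‖ + δ) * (‖y‖ + δ) := by
          apply mul_le_mul ha'.le hb'.le (norm_nonneg _)
          positivity
        _ ≤ ‖x‖ * ‖y‖ + ε := hδ.le }

noncomputable instance instStarRing (H : Good I) : StarRing (Q H) where
  star_involutive := by
    intro x
    obtain ⟨a, rfl⟩ := mk_surj H x
    rw [← mk_star, ← mk_star, star_star]
  star_mul := by
    intro x y
    obtain ⟨a, rfl⟩ := mk_surj H x
    obtain ⟨b, rfl⟩ := mk_surj H y
    rw [← mk_mul, ← mk_star, ← mk_star, ← mk_star, ← mk_mul, star_mul]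
  star_add := by
    intro x y
    obtain ⟨a, rfl⟩ := mk_surj H x
    obtain ⟨b, rfl⟩ := mk_surj H y
    rw [← mk_add, ← mk_star, ← mk_star, ← mk_star, ← mk_add, star_add]

noncomputable instance instModule (H : Good I) : Module ℂ (Q H) where
  smul := fun c x => c • x
  one_smul := by
    intro x
    obtain ⟨a, rfl⟩ := mk_surj H x
    rw [← mk_smul, one_smul]
  mul_smul := by
    intro r t x
    obtain ⟨a, rfl⟩ := mk_surj H x
    rw [← mk_smul, ← mk_smul, ← mk_smul, mul_smul]
  smul_zero := by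
    intro r
    rw [← mk_zero, ← mk_smul, smul_zero]
  smul_add := by
    intro r x y
    obtain ⟨a, rfl⟩ := mk_surj H x
    obtain ⟨b, rfl⟩ := mk_surj H y
    rw [← mk_add, ← mk_smul, ← mk_smul, ← mk_smul, ← mk_add, smul_add]
  add_smul := by
    intro r t x
    obtain ⟨a, rfl⟩ := mk_surj H x
    rw [← mk_smul, ← mk_smul, ← mk_smul, ← mk_add, add_smul]
  zero_smul := by
    intro x
    obtain ⟨a, rfl⟩ := mk_surj H x
    rw [← mk_smul, zero_smul, mk_zero]

theorem mk_smul' (H : Good I) (c : ℂ) (b : A) : mk H (c • b) = c • mk H b := rfl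

noncomputable instance instAlgebra (H : Good I) : Algebra ℂ (Q H) :=
  Algebra.ofModule
    (by
      intro r x y
      obtain ⟨a, rfl⟩ := mk_surj H x
      obtain ⟨b, rfl⟩ := mk_surj H y
      rw [← mk_smul', ← mk_mul, ← mk_mul, ← mk_smul', smul_mul_assoc])
    (by
      intro r x y
      obtain ⟨a, rfl⟩ := mk_surj H x
      obtain ⟨b, rfl⟩ := mk_surj H y
      rw [← mk_smul', ← mk_mul, ← mk_mul, ← mk_smul', mul_smul_comm])

noncomputable instance instNormedAlgebra (H : Good I) : NormedAlgebra ℂ (Q H) where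
  norm_smul_le := by
    intro r x
    exact norm_smul_Q H r x

instance instStarModule (H : Good I) : StarModule ℂ (Q H) where
  star_smul := by
    intro r x
    obtain ⟨a, rfl⟩ := mk_surj H x
    rw [← mk_smul', ← mk_star, ← mk_star, star_smul, mk_smul']

theorem norm_sub_mul_le (z : A) (h2 : ‖1 - z‖ ≤ 1) (y : A) : ‖y - y * z‖ ≤ ‖y‖ := by
  have e : y - y * z = y * (1 - z) := by rw [mul_sub, mul_one]
  rw [e]
  calc ‖y * (1 - z)‖ ≤ ‖y‖ * ‖1 - z‖ := norm_mul_le _ _
    _ ≤ ‖y‖ * 1 := by gcongr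
    _ = ‖y‖ := _root_.mul_one _

theorem norm_sub_mul_le' (z : A) (h2 : ‖1 - z‖ ≤ 1) (y : A) : ‖y - z * y‖ ≤ ‖y‖ := by
  have e : y - z * y = (1 - z) * y := by rw [sub_mul, _root_.one_mul]
  rw [e]
  calc ‖(1 - z) * y‖ ≤ ‖1 - z‖ * ‖y‖ := norm_mul_le _ _
    _ ≤ 1 * ‖y‖ := by gcongr
    _ = ‖y‖ := _root_.one_mul _

theorem cstar_key (z y i : A) (h2 : ‖1 - z‖ ≤ 1) :
    ‖y - z * y - y * z + z * y * z‖ ≤ ‖y + i‖ + ‖i - i * z‖ := by
  have e1 : y - z * y - y * z + z * y * z = ((y + i) - (y + i) * z) - z * ((y + i) - (y + i) * z)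
      - ((i - i * z) - z * (i - i * z)) := by
    simp only [mul_sub, sub_mul, mul_add, add_mul, mul_assoc]
    abel
  rw [e1]
  calc _ ≤ ‖((y + i) - (y + i) * z) - z * ((y + i) - (y + i) * z)‖ + ‖(i - i * z) - z * (i - i * z)‖ :=
        norm_sub_le _ _
    _ ≤ ‖(y + i) - (y + i) * z‖ + ‖i - i * z‖ :=
        add_le_add (norm_sub_mul_le' z h2 _) (norm_sub_mul_le' z h2 _)
    _ ≤ ‖y + i‖ + ‖i - i * z‖ := by
        gcongr
        exact norm_sub_mul_le z h2 _

instance instCStarRing (H : Good I) : CStarRing (Q H) where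
  norm_mul_self_le := by
    intro x
    obtain ⟨a, rfl⟩ := mk_surj H x
    apply le_of_forall_pos_le_add
    intro ε hε
    rw [← mk_star, ← mk_mul]
    obtain ⟨m, hm, hm'⟩ := exists_rep H (mk H (star a * a)) (half_pos hε)
    have hi : m - star a * a ∈ I := (mk_eq H _ _).1 hm
    obtain ⟨z, hz, h1, h2, h3⟩ := H.hap _ hi _ (half_pos hε)
    have e0 : mk H a = mk H (a - a * z) := by
      rw [mk_eq]
      have := H.hl a z hz
      simpa using this
    have e1 : ‖mk H a‖ ≤ ‖a - a * z‖ := by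
      rw [e0]; exact norm_mk_le H _
    have e2 : ‖a - a * z‖ * ‖a - a * z‖ = ‖star (a - a * z) * (a - a * z)‖ :=
      (CStarRing.norm_star_mul_self (x := a - a * z)).symm
    have e3 : star (a - a * z) * (a - a * z) = (star a * a) - z * (star a * a) - (star a * a) * z
        + z * (star a * a) * z := by
      rw [star_sub, star_mul, h1]
      simp only [mul_sub, sub_mul, mul_assoc]
      abel
    have e4 := cstar_key z (star a * a) (m - star a * a) h2
    have e5 : star a * a + (m - star a * a) = m := by abel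
    rw [e5] at e4
    calc ‖mk H a‖ * ‖mk H a‖ ≤ ‖a - a * z‖ * ‖a - a * z‖ :=
          mul_le_mul e1 e1 (norm_nonneg _) (norm_nonneg _)
      _ = ‖(star a * a) - z * (star a * a) - (star a * a) * z + z * (star a * a) * z‖ := by
          rw [e2, e3]
      _ ≤ ‖mk H (star a * a)‖ + ε := by linarith

noncomputable instance instCStarAlgebra (H : Good I) : CStarAlgebra (Q H) where

theorem mk_algebraMap (H : Good I) (c : ℂ) :
    mk H (algebraMap ℂ A c) = algebraMap ℂ (Q H) c := by
  rw [Algebra.algebraMap_eq_smul_one, Algebra.algebraMap_eq_smul_one, mk_smul', mk_one]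

noncomputable def mkHom (H : Good I) : A →⋆ₐ[ℂ] Q H where
  toFun := mk H
  map_one' := mk_one H
  map_zero' := mk_zero H
  map_add' := mk_add H
  map_mul' := mk_mul H
  commutes' := mk_algebraMap H
  map_star' := mk_star H

end P_M7

open P_M7 in
theorem p_M_quot : M_quot := by
  intro A _ K _ _ _ v hv c hc hb
  have hker : ∀ x, x ∈ LinearMap.ker v ↔ v x = 0 := fun x => LinearMap.mem_ker
  have hcont : Continuous v := by
    have := (v.mkContinuous c hb).continuous
    exact this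
  have hclosed : IsClosed (LinearMap.ker v : Set A) := by
    have : (LinearMap.ker v : Set A) = v ⁻¹' {0} := by ext x; simp
    rw [this]
    exact isClosed_singleton.preimage hcont
  have H : Good (LinearMap.ker v) := good_of _ hclosed
    (fun a x hx => by rw [hker] at hx ⊢; rw [hv.mul, hx, mul_zero])
    (fun a x hx => by rw [hker] at hx ⊢; rw [hv.mul, hx, zero_mul])
  have hch : ∀ b : Q H, ∃ a : A, mk H a = b := mk_surj H
  choose s hs using hch
  have hsv : ∀ a, v (s (mk H a)) = v a := by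
    intro a
    have h1 := (mk_eq H _ _).1 (hs (mk H a))
    rw [hker, map_sub, sub_eq_zero] at h1
    exact h1
  let w : Q H →ₗ[ℂ] (K →L[ℂ] K) :=
    { toFun := fun b => v (s b)
      map_add' := by
        intro x y
        obtain ⟨a, rfl⟩ := mk_surj H x
        obtain ⟨b, rfl⟩ := mk_surj H y
        rw [← mk_add, hsv, hsv, hsv, map_add]
      map_smul' := by
        intro r x
        obtain ⟨a, rfl⟩ := mk_surj H x
        rw [← mk_smul', hsv, hsv, map_smul]
        rfl }
  have hw : ∀ a, w (mk H a) = v a := hsv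
  refine ⟨Q H, instCStarAlgebra H, mkHom H, w, mk_surj H, ⟨?_, ?_⟩, ?_, hw, ?_⟩
  · intro x y
    obtain ⟨a, rfl⟩ := mk_surj H x
    obtain ⟨b, rfl⟩ := mk_surj H y
    rw [← mk_mul, hw, hw, hw, hv.mul]
  · rw [← mk_one, hw, hv.one]
  · intro b
    apply le_of_forall_pos_le_add
    intro ε hε
    obtain ⟨m, hm, hm'⟩ := exists_rep H b (ε := ε / (c + 1)) (by positivity)
    have h1 : ‖w b‖ ≤ c * ‖m‖ := by
      rw [← hm, hw]; exact hb m
    have h2 : c * (ε / (c + 1)) ≤ ε := by
      rw [mul_div_assoc', div_le_iff₀ (by positivity)]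
      nlinarith
    calc ‖w b‖ ≤ c * ‖m‖ := h1
      _ ≤ c * (‖b‖ + ε / (c + 1)) := mul_le_mul_of_nonneg_left hm'.le hc
      _ = c * ‖b‖ + c * (ε / (c + 1)) := by ring
      _ ≤ c * ‖b‖ + ε := by linarith
  · intro a ha
    show mk H a = 0
    rw [← mk_zero, mk_eq, sub_zero]
    exact ha

end H711R2.KM
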