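import Mathlib
import Pool.Agent.H711R2.KM.Props

/-!
Task M8 (helper83): localisation of a bounded homomorphism that is *-preserving on the centre.
(The structure follows helper881's file `Pool.Agent.H881R2.Kad.PFib`.)
-/

open scoped ComplexOrder InnerProductSpace ComplexConjugate
open Finset

noncomputable section

namespace H711R2.KM

open H759R2.Kad H711R2.KG H770R2.Kad H710R2.DP

namespace P_M8

section defs

variable {A : Type} [CStarAlgebra A]
  {H : Type} [NormedAddCommGroup H] [InnerProductSpace ℂ H] [CompleteSpace H]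

/-- Centrality. -/
def Cen (z : A) : Prop := ∀ a : A, z * a = a * z

/-- The set of the images of the central elements. -/
def ZS (U : A →ₗ[ℂ] (H →L[ℂ] H)) : Set (H →L[ℂ] H) := {T | ∃ z : A, Cen z ∧ U z = T}

/-- The commutant of the image of the centre. -/
def Rc (U : A →ₗ[ℂ] (H →L[ℂ] H)) : StarSubalgebra ℂ (H →L[ℂ] H) :=
  StarSubalgebra.centralizer ℂ (ZS U)

instance Rc_closed (U : A →ₗ[ℂ] (H →L[ℂ] H)) : IsClosed (Rc U : Set (H →L[ℂ] H)) := by
  rw [Rc, StarSubalgebra.coe_centralizer]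
  exact Set.isClosed_centralizer _

theorem Cen.star' {z : A} (hz : Cen z) : Cen (star z) := by
  intro a
  have h := congrArg star (hz (star a))
  rw [star_mul, star_mul, star_star] at h
  exact h.symm

theorem mem_Rc (U : A →ₗ[ℂ] (H →L[ℂ] H)) (hst : ∀ z : A, Cen z → star (U z) = U (star z))
    {x : H →L[ℂ] H} : x ∈ Rc U ↔ ∀ z, Cen z → U z * x = x * U z := by
  rw [Rc, StarSubalgebra.mem_centralizer_iff]
  constructor
  · intro h z hz
    exact (h _ ⟨z, hz, rfl⟩).1
  · rintro h T ⟨z, hz, rfl⟩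
    refine ⟨h z hz, ?_⟩
    rw [hst z hz]
    exact h _ hz.star'

end defs

end P_M8

open P_M8

theorem p_M_loc (hrep : H770R2.Kad.G_rep.{0, 0}) (hquot : M_quot) : M_loc := by
  intro E _ _ _ W _ _ H _ _ _ U hU c hc hUb hst m C hC hfib X
  rcases Nat.eq_zero_or_pos m with hm | hm
  · subst hm
    have : amp U (Fin 0) X = 0 := by
      ext v i
      exact i.elim0
    rw [this, norm_zero]
    positivity
  -- the algebra `R`
  let _ : PartialOrder (Rc U) := CStarAlgebra.spectralOrder (Rc U)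
  let _ : StarOrderedRing (Rc U) := CStarAlgebra.spectralOrderedRing (Rc U)
  have hUR : ∀ x, U x ∈ Rc U := by
    intro x
    rw [mem_Rc U hst]
    intro z hz
    rw [← hU.mul, ← hU.mul, hz x]
  let U' : W.toStarSubalgebra →ₗ[ℂ] Rc U :=
    { toFun := fun x => ⟨U x, hUR x⟩
      map_add' := fun x y => Subtype.ext (map_add U x y)
      map_smul' := fun l x => Subtype.ext (map_smul U l x) }
  have hU'v : ∀ x, ((U' x : Rc U) : H →L[ℂ] H) = U x := fun x => rfl
  have hU'c : ∀ z, Cen z → ∀ r : Rc U, U' z * r = r * U' z := by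
    intro z hz r
    exact Subtype.ext ((mem_Rc U hst).mp r.2 z hz)
  set Y : CStarMatrix (Fin m) (Fin m) (Rc U) :=
    CStarMatrix.ofMatrix (fun i k => U' (X i k)) with hYdef
  have hYa : ∀ i k, Y i k = U' (X i k) := fun i k => rfl
  have he0 : amp U (Fin m) X = ampHom (Rc U).subtype (Fin m) Y := by
    ext v i
    rw [ampHom_apply, amp_apply, amp_apply]
    rfl
  have hn : ‖ampHom (Rc U).subtype (Fin m) Y‖ ≤ ‖Y‖ := NonUnitalStarAlgHom.norm_apply_le _ _
  rw [he0]
  refine hn.trans ?_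
  by_cases hY : Y = 0
  · rw [hY, norm_zero]
    positivity
  obtain ⟨K, iK1, iK2, iK3, ρ, hρn, hρz⟩ := hrep (Rc U) H (Rc U).subtype
    Subtype.val_injective m hm Y hY
  -- the homomorphism `v = ρ ∘ U'`
  let v : W.toStarSubalgebra →ₗ[ℂ] (K →L[ℂ] K) := ρ.toLinearMap ∘ₗ U'
  have hva : ∀ x, v x = ρ (U' x) := fun x => rfl
  have hv : IsHom v := by
    refine ⟨fun a b => ?_, ?_⟩
    · rw [hva, hva, hva, ← map_mul]
      exact congrArg ρ (Subtype.ext (hU.mul a b))
    · rw [hva]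
      have h1 : U' 1 = 1 := Subtype.ext hU.one
      rw [h1, map_one]
  have hvb : ∀ a, ‖v a‖ ≤ c * ‖a‖ := by
    intro a
    rw [hva]
    refine (NonUnitalStarAlgHom.norm_apply_le ρ (U' a)).trans ?_
    exact hUb a
  obtain ⟨B, iB, φ, w, hφs, hw, hwb, hwφ, hker⟩ := hquot W.toStarSubalgebra K v hv c hc hvb
  let _ : PartialOrder B := CStarAlgebra.spectralOrder B
  let _ : StarOrderedRing B := CStarAlgebra.spectralOrderedRing B
  have hz : ∀ z : W.toStarSubalgebra, (∀ a, z * a = a * z) → ∃ l : ℂ, φ z = algebraMap ℂ B l := by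
    intro z hz
    obtain ⟨l, hl⟩ := hρz (U' z) (hU'c z hz)
    refine ⟨l, ?_⟩
    have h1 : v (z - l • 1) = 0 := by
      rw [map_sub, map_smul, hv.one, hva, hl, sub_self]
    have h2 := hker _ h1
    rw [map_sub, map_smul, map_one, sub_eq_zero] at h2
    rw [h2, Algebra.algebraMap_eq_smul_one]
  have hL := hfib B φ hφs hz K w hw hwb
  set Z : CStarMatrix (Fin m) (Fin m) B :=
    CStarMatrix.mapₙₐ (n := Fin m) (φ : W.toStarSubalgebra →⋆ₙₐ[ℂ] B) X with hZ
  have hZn : ‖Z‖ ≤ ‖X‖ := NonUnitalStarAlgHom.norm_apply_le _ _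
  have hZa : ∀ i k, Z i k = φ (X i k) := fun i k => rfl
  have he : amp ρ.toLinearMap (Fin m) Y = amp w (Fin m) Z := by
    ext ξ i
    rw [amp_apply, amp_apply]
    refine Finset.sum_congr rfl fun k _ => ?_
    rw [hZa, hwφ, hYa]
    rfl
  calc ‖Y‖ ≤ ‖amp ρ.toLinearMap (Fin m) Y‖ := hρn
    _ = ‖amp w (Fin m) Z‖ := by rw [he]
    _ ≤ C * ‖Z‖ := hL Z
    _ ≤ C * ‖X‖ := mul_le_mul_of_nonneg_left hZn hC

end H711R2.KM
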